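import Pool.Agent.Q160.JX.Joint
import Pool.Agent.Q6.XK.Ana

/-!
# Simultaneous analytic rank zero for the quadratic twists of the CM curve `X_0(49)`

`E^D : y² = x³ - 35 D² x - 98 D³` are the quadratic twists of `X_0(49)`, the elliptic curve with complex
multiplication by the ring of integers of `ℚ(√-7)`; the prime `2` splits in `ℚ(√-7)` and `E^D` has only one
rational point of order two, so that the known cases of Goldfeld's conjecture do not apply. The class
consists of the squarefree `D ≥ 1` whose prime factors are `≡ 1 mod 8` and split in `ℚ(√-7)`, or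
`≡ 5 mod 8` and inert; with `m` and `D` it contains the squarefree part `star m D` of `m D`, the
curve `E^(star m D)` being the twist by `D` of the curve `E^m`. Let `G`, `K` be disjoint finite sets of
elements of the class and let `D` run through the elements of the class with `D ≡ 1 mod 8`. For exactly
the proportion `c ^ #G (1 - c) ^ #K`, `c = ∏_{i ≥ 0} (1 - 2^{-(2i+1)}) = 0.4194...`, of the `D` all the twists by
`D` of the curves `E^m`, `m ∈ G`, have analytic rank `0`, finitely many rational points and `Ш[2] = 0`, while the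
last two properties fail for the twists by `D` of all the curves `E^m`, `m ∈ K`. The number of these `D ≤ X`
is at least a constant times `X (log X)^(-3/4)`.
-/

set_option autoImplicit false

open Finset Filter

namespace Pool.Agent.Results.MP_03e5d0_nt.SimultaneousTwistsX049

/-- coefficients of the twist `E^D : y² = x³ + A D x + B D` of `X_0(49)` -/
def A (D : ℤ) : ℤ := -35 * D ^ 2

/-- coefficients of the twist `E^D : y² = x³ + A D x + B D` of `X_0(49)` -/
def B (D : ℤ) : ℤ := -98 * D ^ 3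

/-- the curve `E^D` over `ℚ` -/
def E (D : ℤ) : WeierstrassCurve ℚ :=
  { a₁ := 0, a₂ := 0, a₃ := 0, a₄ := (A D : ℚ), a₆ := (B D : ℚ) }

/-- `a_p = p + 1 - #E^D(𝔽_p)`, that is `p` minus the number of affine points modulo `p` -/
noncomputable def ap (D : ℤ) (p : ℕ) : ℤ := (p : ℤ) - Nat.card {z : ZMod p × ZMod p //
  z.2 ^ 2 = z.1 ^ 3 + (A D : ZMod p) * z.1 + (B D : ZMod p)}

open Classical in
/-- `F` is entire and is, for `Re s > 3/2`, the `L`-function of `E^D` without the Euler factors at the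
primes dividing `14 D` -/
def IsL (D : ℤ) (F : ℂ → ℂ) : Prop :=
  Differentiable ℂ F ∧ ∀ s : ℂ, (3 : ℝ) / 2 < s.re →
    HasProd (fun p : ℕ => if p.Prime ∧ ¬ (p : ℤ) ∣ 14 * D then
      (1 - (ap D p : ℂ) * (p : ℂ) ^ (-s) + (p : ℂ) ^ (1 - 2 * s))⁻¹ else 1) (F s)

/-- the analytic rank of `E^D` is `0` -/
def AnRankZero (D : ℤ) : Prop := (∃ F : ℂ → ℂ, IsL D F) ∧ ∀ F : ℂ → ℂ, IsL D F → F 1 ≠ 0

/-- `E^D(ℚ)` is finite and `Ш(E^D/ℚ)` has no element of order two -/
def RankZeroShaTwo (D : ℤ) : Prop :=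
  Finite (E D).toAffine.Point ∧ ∀ x : Pool.Agent.TH841.SH.D.Sha (E D), 2 • x = 0 → x = 0

/-- the class: `D` is squarefree, its prime factors are `1` modulo `8` and split in `ℚ(√-7)`, or `5`
modulo `8` and inert in `ℚ(√-7)` -/
def Class (D : ℕ) : Prop := Squarefree D ∧ ∀ p : ℕ, p.Prime → p ∣ D →
  (p % 8 = 1 ∧ (p % 7 = 1 ∨ p % 7 = 2 ∨ p % 7 = 4)) ∨
  (p % 8 = 5 ∧ (p % 7 = 3 ∨ p % 7 = 5 ∨ p % 7 = 6))

/-- the family: the numbers of the class which are `1` modulo `8` -/
def Family (D : ℕ) : Prop := Class D ∧ D % 8 = 1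

/-- the squarefree part of the product of two squarefree numbers -/
def star (m D : ℕ) : ℕ := m * D / (Nat.gcd m D) ^ 2

open Classical in
/-- the number of the `D ≤ X` in the family with the property `Q` -/
noncomputable def count (Q : ℕ → Prop) (X : ℕ) : ℕ := ((Icc 1 X).filter fun D => Family D ∧ Q D).card

/-! ### translation -/

open Q6.XK Q6.XM
open Pool.Agent.Y703.CQ (c2)

theorem triv_iff' (D : ℤ) : RankZeroShaTwo D ↔ Triv D := by
  unfold RankZeroShaTwo Triv
  refine and_congr Iff.rfl (forall_congr' fun x => ?_)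
  rw [two_nsmul]
  rfl

theorem class_base {D : ℕ} (hD : Class D) : Base D := by
  refine ⟨hD.1, fun p hp hd => ?_⟩
  rcases hD.2 p hp hd with h | h <;> omega

theorem dvd_iff {D : ℤ} {p : ℕ} (hp : p.Prime) :
    ((p : ℤ) ∣ 14 * D) ↔ ((p : ℤ) ∣ 2 * (-4 * (-35 * D ^ 2) ^ 3 - 27 * (-98 * D ^ 3) ^ 2)) := by
  have hpi := Nat.prime_iff_prime_int.1 hp
  constructor
  · intro h1
    have e : (2 * (-4 * (-35 * D ^ 2) ^ 3 - 27 * (-98 * D ^ 3) ^ 2) : ℤ) =
        (-(2 ^ 8 * 7 ^ 2 * D ^ 5)) * (14 * D) := by ring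
    rw [e]
    exact Dvd.dvd.mul_left h1 _
  · intro h1
    refine hpi.dvd_of_dvd_pow (n := 9) ?_
    have e : (14 * D) ^ 9 = (-(7 ^ 6 * D ^ 3)) *
        (2 * (-4 * (-35 * D ^ 2) ^ 3 - 27 * (-98 * D ^ 3) ^ 2)) := by ring
    rw [e]
    exact Dvd.dvd.mul_left h1 _

theorem isL_unique {D : ℤ} {F G : ℂ → ℂ} (hF : IsL D F) (hG : IsL D G) : F = G := by
  have hF' : AnalyticOnNhd ℂ F Set.univ := fun z _ => hF.1.analyticAt z
  have hG' : AnalyticOnNhd ℂ G Set.univ := fun z _ => hG.1.analyticAt z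
  refine hF'.eq_of_eventuallyEq hG' (z₀ := 2) ?_
  have hmem : {s : ℂ | (3 : ℝ) / 2 < s.re} ∈ nhds (2 : ℂ) :=
    (isOpen_lt continuous_const Complex.continuous_re).mem_nhds (by
      show (3 : ℝ) / 2 < (2 : ℂ).re
      norm_num)
  filter_upwards [hmem] with s hs
  exact (hF.2 s hs).unique (hG.2 s hs)

theorem rank_zero {D : ℕ} (hD : Class D) (h : RankZeroShaTwo (D : ℤ)) : AnRankZero (D : ℤ) := by
  classical
  have hB := class_base hD
  have hdet : (Pool.Agent.Y698.SG.mat (QQ D) (PP D)).det ≠ 0 :=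
    (crit hB).2 ((triv_crit hB).1 ((triv_iff' _).1 h))
  obtain ⟨F, h1, h2, h3⟩ := ana (hQQ hB) (hPP hB) hdet (D := (D : ℤ)) (by rw [prod_QP hB])
  have hF : IsL (D : ℤ) F := by
    refine ⟨h1, fun s hs => ?_⟩
    refine (congrArg (fun g => HasProd g (F s)) (funext fun p => ?_)).mp (h2 s hs)
    by_cases hp : p.Prime
    · have e := dvd_iff (D := (D : ℤ)) hp
      by_cases hd : (p : ℤ) ∣ 14 * (D : ℤ)
      · rw [if_neg (fun h => h.2 (e.1 hd)), if_neg (fun h => h.2 hd)]
      · rw [if_pos ⟨hp, fun h => hd (e.2 h)⟩, if_pos ⟨hp, hd⟩]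
        unfold ap A B
        push_cast
        rfl
    · rw [if_neg (fun h => hp h.1), if_neg (fun h => hp h.1)]
  exact ⟨⟨F, hF⟩, fun G hG => by rw [isL_unique hG hF]; exact h3⟩

open Classical in
theorem count_congr {Q R : ℕ → Prop} (h : ∀ D, Family D → (Q D ↔ R D)) (X : ℕ) :
    count Q X = Pool.Agent.Q160.JX.count R X := by
  unfold count Pool.Agent.Q160.JX.count
  congr 1
  ext D
  rw [Finset.mem_filter, Finset.mem_filter]
  exact and_congr_right fun _ => and_congr_right fun hD => h D hD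

/-- **Theorem.** The class is closed under `star`, and `star m D` is the squarefree part of `m D`. For all
disjoint finite sets `G`, `K` of elements of the class the proportion of the `D ≤ X` in the family for
which the twists by `D` of all the curves `E^m`, `m ∈ G`, have analytic rank `0`, finitely many rational points
and `Ш[2] = 0`, whereas the twists by `D` of the curves `E^m`, `m ∈ K`, have infinitely many rational
points or `Ш[2] ≠ 0`, tends to `c ^ #G (1 - c) ^ #K`; there are at least `a X (log X)^(-3/4)` such `D ≤ X`. -/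
theorem result : (∀ m D : ℕ, Class m → Class D → Class (star m D) ∧
      m * D = star m D * (Nat.gcd m D) ^ 2) ∧
    ∃ c : ℝ, 0.4194 < c ∧ c < 0.4195 ∧
      Tendsto (fun n : ℕ => ∏ i ∈ range n, (1 - (1 / 2 : ℝ) ^ (2 * i + 1))) atTop (nhds c) ∧
      ∀ G K : Finset ℕ, (∀ m ∈ G, Class m) → (∀ m ∈ K, Class m) → Disjoint G K →
        Tendsto (fun X : ℕ => (count (fun D =>
            (∀ m ∈ G, AnRankZero (star m D) ∧ RankZeroShaTwo (star m D)) ∧
              ∀ m ∈ K, ¬ RankZeroShaTwo (star m D)) X : ℝ) /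
          (count (fun _ => True) X : ℝ)) atTop (nhds (c ^ G.card * (1 - c) ^ K.card)) ∧
        ∃ (a : ℝ) (X₀ : ℕ), 0 < a ∧ ∀ X : ℕ, X₀ ≤ X → a * (X * (Real.log X) ^ (-(3 / 4) : ℝ)) ≤
          (count (fun D => (∀ m ∈ G, AnRankZero (star m D) ∧ RankZeroShaTwo (star m D)) ∧
            ∀ m ∈ K, ¬ RankZeroShaTwo (star m D)) X : ℝ) := by
  classical
  obtain ⟨-, hc1, hc2, hT⟩ := Pool.Agent.Q160.JX.const
  refine ⟨fun m D hm hD => Pool.Agent.Q160.JX.star_class hm hD, c2, hc1, hc2, hT, ?_⟩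
  intro G K hG hK hd
  obtain ⟨hlim, hlow⟩ := Pool.Agent.Q160.JX.main G K hG hK hd
  have e0 : ∀ X, count (fun _ => True) X = Pool.Agent.Q160.JX.count (fun _ => True) X := fun _ => rfl
  have e : ∀ X, count (fun D => (∀ m ∈ G, AnRankZero (star m D) ∧ RankZeroShaTwo (star m D)) ∧
      ∀ m ∈ K, ¬ RankZeroShaTwo (star m D)) X =
      Pool.Agent.Q160.JX.count (fun D => (∀ m ∈ G, Triv (Pool.Agent.Q160.JX.star m D : ℤ)) ∧
        ∀ m ∈ K, ¬ Triv (Pool.Agent.Q160.JX.star m D : ℤ)) X := by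
    intro X
    refine count_congr (fun D hD => ?_) X
    refine and_congr (forall_congr' fun m => forall_congr' fun hm => ?_)
      (forall_congr' fun m => forall_congr' fun hm => not_congr (triv_iff' _))
    exact ⟨fun h => (triv_iff' _).1 h.2, fun h =>
      ⟨rank_zero (Pool.Agent.Q160.JX.star_class (hG m hm) hD.1).1 ((triv_iff' _).2 h),
        (triv_iff' _).2 h⟩⟩
  simp only [e, e0]
  exact ⟨hlim, hlow⟩

end Pool.Agent.Results.MP_03e5d0_nt.SimultaneousTwistsX049
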